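import Pool.Agent.H83.FD.TargetsB

/-!
Row SSX of the board fdb_modules (MP_ee74d2_an): stability of the class `EnX` under sub-sums.
-/

set_option autoImplicit false

namespace Pool.Agent.H4.FD.SSX

open MeasureTheory Set Pool.Agent.H83.G Pool.Agent.H83.FD
open scoped ENNReal NNReal RealInnerProductSpace

/-- every point is close to a lattice cap -/
private theorem near_cap (hPUS : T_PUS) {m : ℕ} {β : E m → ℂ} (hβ : IsPU β) {s : ℝ} (hs : 0 < s)
    (x : E m) : ∃ k : Fin m → ℤ, ‖x - ctr s k‖ < s := by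
  by_contra hcon
  push Not at hcon
  have h1 := ((hPUS m).1 β s hβ hs).1 x
  have h2 : ∀ k : Fin m → ℤ, β (s⁻¹ • (x - ctr s k)) = 0 := by
    intro k
    refine hβ.2.1 _ ?_
    rw [norm_smul, norm_inv, Real.norm_of_nonneg hs.le, ← div_eq_inv_mul, le_div_iff₀ hs, one_mul]
    exact hcon k
  have h3 : HasSum (fun k : Fin m → ℤ => β (s⁻¹ • (x - ctr s k))) 0 := by
    simp only [h2]
    exact hasSum_zero
  exact zero_ne_one (h3.unique h1)

/-- the number of separated points near a point -/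
private theorem card_sep (hPUS : T_PUS) {m : ℕ} {β : E m → ℂ} (hβ : IsPU β) :
    ∃ C : ℝ, 0 < C ∧ ∀ (D t : ℝ) (y : E m) (J : Finset (E m)), 0 ≤ D → 0 < t →
      (∀ x ∈ J, ∀ x' ∈ J, x ≠ x' → t ≤ ((m : ℝ) + 1) * ‖x - x'‖) →
      (∀ x ∈ J, ‖y - x‖ ≤ D * t) → (J.card : ℝ) ≤ C * (2 + 4 * ((m : ℝ) + 1) * D) ^ m := by
  classical
  obtain ⟨_, _, Cp, hCp0, _, hcount, _⟩ := hPUS m
  refine ⟨Cp, hCp0, fun D t y J hD ht hsep hJ => ?_⟩
  set τ : ℝ := t / (4 * ((m : ℝ) + 1)) with hτ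
  have hm : (0 : ℝ) < 4 * ((m : ℝ) + 1) := by positivity
  have hτ0 : 0 < τ := div_pos ht hm
  have hτt : τ * (4 * ((m : ℝ) + 1)) = t := by rw [hτ]; field_simp
  choose f hf using fun x : E m => near_cap hPUS hβ hτ0 x
  have hinj : Set.InjOn f (J : Set (E m)) := by
    intro x hx x' hx' h
    by_contra hne
    have h1 := hsep x hx x' hx' hne
    have h2 : ‖x - x'‖ < 2 * τ := by
      calc ‖x - x'‖ = ‖(x - ctr τ (f x)) - (x' - ctr τ (f x'))‖ := by
            rw [h]; congr 1; abel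
        _ ≤ ‖x - ctr τ (f x)‖ + ‖x' - ctr τ (f x')‖ := norm_sub_le _ _
        _ < τ + τ := add_lt_add (hf x) (hf x')
        _ = 2 * τ := by ring
    have h3 : ((m : ℝ) + 1) * ‖x - x'‖ < ((m : ℝ) + 1) * (2 * τ) :=
      mul_lt_mul_of_pos_left h2 (by positivity)
    have h4 : ((m : ℝ) + 1) * (2 * τ) = t / 2 := by rw [← hτt]; ring
    linarith
  have h1 : (J.image f).card = J.card := Finset.card_image_of_injOn hinj
  have h2 := hcount τ (τ + D * t) y (J.image f) hτ0 (by positivity) (by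
    intro k hk
    obtain ⟨x, hx, rfl⟩ := Finset.mem_image.1 hk
    calc ‖ctr τ (f x) - y‖ = ‖(x - ctr τ (f x)) + (y - x)‖ := by
          rw [← norm_neg]; congr 1; abel
      _ ≤ ‖x - ctr τ (f x)‖ + ‖y - x‖ := norm_add_le _ _
      _ ≤ τ + D * t := add_le_add (hf x).le (hJ x hx))
  rw [h1] at h2
  refine h2.trans (le_of_eq ?_)
  congr 2
  rw [← hτt]
  field_simp
  ring

/-- centres of caps are separated -/
private theorem ctr_sep {m : ℕ} {s : ℝ} (hs : 0 < s) {k k' : Fin m → ℤ} (h : k ≠ k') :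
    s ≤ ((m : ℝ) + 1) * ‖ctr s k - ctr s k'‖ := by
  obtain ⟨i, hi⟩ := Function.ne_iff.1 h
  have h1 : ctr s k - ctr s k' =
      (s / ((m : ℝ) + 1)) • WithLp.toLp 2 (fun i => ((k i - k' i : ℤ) : ℝ)) := by
    unfold ctr
    rw [← smul_sub, ← WithLp.toLp_sub]
    congr 2
    funext i
    simp only [Pi.sub_apply, Int.cast_sub]
  have h2 : (1 : ℝ) ≤ ‖(WithLp.toLp 2 (fun i => ((k i - k' i : ℤ) : ℝ)) : E m)‖ := by
    have h3 := PiLp.norm_apply_le (WithLp.toLp 2 (fun i => ((k i - k' i : ℤ) : ℝ)) : E m) i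
    refine le_trans ?_ h3
    simp only [Real.norm_eq_abs]
    have h4 : (1 : ℤ) ≤ |k i - k' i| := Int.one_le_abs (sub_ne_zero.2 hi)
    have h5 : (1 : ℝ) ≤ ((|k i - k' i| : ℤ) : ℝ) := by exact_mod_cast h4
    rwa [Int.cast_abs] at h5
  rw [h1, norm_smul, Real.norm_of_nonneg (by positivity)]
  have hm : (0 : ℝ) < (m : ℝ) + 1 := by positivity
  calc s = ((m : ℝ) + 1) * (s / ((m : ℝ) + 1) * 1) := by field_simp
    _ ≤ _ := by gcongr

private theorem ctr_inj {m : ℕ} {s : ℝ} (hs : 0 < s) : Function.Injective (ctr (m := m) s) := by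
  intro k k' h
  by_contra hne
  have := ctr_sep hs hne
  rw [h, sub_self, norm_zero, mul_zero] at this
  linarith

/-- the numbers -/
private theorem arith {m : ℕ} {α R R₁ s s' r A : ℝ} (hR₁ : 1 ≤ R₁) (hR : R₁ ≤ R) (hs : 0 < s)
    (hs' : 0 < s') (hr : 0 < r) (hrR : r ≤ R₁) {c0 K : ℝ} (hK1 : 1 ≤ K)
    (hK : c0 ≤ K) :
    c0 * ((max 1 (Real.sqrt R / (R₁ * s))) ^ m *
      ((min (R₁ * s) (Real.sqrt R) / Real.sqrt R) ^ m * (R₁ / R)) * (s / s') ^ m *
      (A ^ 2 * (R * (R * s') ^ m * min (R ^ (α - m)) (r ^ (α - m))))) ≤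
    (K * A * (R / R₁) ^ ((m : ℝ) / 2)) ^ 2 *
      (R₁ * (R₁ * s) ^ m * min (R₁ ^ (α - m)) (r ^ (α - m))) := by
  have hR10 : 0 < R₁ := by linarith
  have hR0 : 0 < R := by linarith
  have hsq : 0 < Real.sqrt R := Real.sqrt_pos.2 hR0
  have e1 : max 1 (Real.sqrt R / (R₁ * s)) * (min (R₁ * s) (Real.sqrt R) / Real.sqrt R) = 1 := by
    have hu : 0 < R₁ * s := by positivity
    rcases le_total (R₁ * s) (Real.sqrt R) with h | h
    · rw [min_eq_left h, max_eq_right ((one_le_div hu).2 h)]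
      field_simp
    · rw [min_eq_right h, max_eq_left ((div_le_one hu).2 h), div_self hsq.ne', one_mul]
  have e2 : (K * A * (R / R₁) ^ ((m : ℝ) / 2)) ^ 2 = K ^ 2 * A ^ 2 * (R / R₁) ^ m := by
    have h1 : ((R / R₁) ^ ((m : ℝ) / 2)) ^ 2 = (R / R₁) ^ m := by
      rw [← Real.rpow_natCast ((R / R₁) ^ ((m : ℝ) / 2)) 2, ← Real.rpow_mul (by positivity)]
      rw [← Real.rpow_natCast (R / R₁) m]
      congr 1
      push_cast
      ring
    rw [mul_pow, mul_pow, h1]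
  have e3 : min (R ^ (α - m)) (r ^ (α - m)) ≤ min (R₁ ^ (α - m)) (r ^ (α - m)) := by
    refine le_min ?_ (min_le_right _ _)
    rcases le_total 0 (α - (m : ℝ)) with h | h
    · exact (min_le_right _ _).trans (Real.rpow_le_rpow hr.le hrR h)
    · exact (min_le_left _ _).trans (Real.rpow_le_rpow_of_nonpos hR10 hR h)
  have e0 : 0 ≤ min (R ^ (α - m)) (r ^ (α - m)) :=
    le_min (Real.rpow_nonneg hR0.le _) (Real.rpow_nonneg hr.le _)
  rw [e2]
  have e4 : c0 * ((max 1 (Real.sqrt R / (R₁ * s))) ^ m *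
      ((min (R₁ * s) (Real.sqrt R) / Real.sqrt R) ^ m * (R₁ / R)) * (s / s') ^ m *
      (A ^ 2 * (R * (R * s') ^ m * min (R ^ (α - m)) (r ^ (α - m))))) =
      c0 * (A ^ 2 * (R₁ * (R * s) ^ m * min (R ^ (α - m)) (r ^ (α - m)))) := by
    have h1 : (max 1 (Real.sqrt R / (R₁ * s))) ^ m *
        (min (R₁ * s) (Real.sqrt R) / Real.sqrt R) ^ m = 1 := by
      rw [← mul_pow, e1, one_pow]
    have h2 : (s / s') ^ m * (R * s') ^ m = (R * s) ^ m := by
      rw [← mul_pow]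
      congr 1
      field_simp
    have h3 : R₁ / R * R = R₁ := by field_simp
    calc _ = c0 * (((max 1 (Real.sqrt R / (R₁ * s))) ^ m *
        (min (R₁ * s) (Real.sqrt R) / Real.sqrt R) ^ m) *
        (A ^ 2 * ((R₁ / R * R) * ((s / s') ^ m * (R * s') ^ m) *
          min (R ^ (α - m)) (r ^ (α - m))))) := by ring
      _ = _ := by rw [h1, h2, h3, one_mul]
  have e5 : K ^ 2 * A ^ 2 * (R / R₁) ^ m * (R₁ * (R₁ * s) ^ m *
      min (R₁ ^ (α - m)) (r ^ (α - m))) =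
      K ^ 2 * (A ^ 2 * (R₁ * (R * s) ^ m * min (R₁ ^ (α - m)) (r ^ (α - m)))) := by
    have h2 : (R / R₁) ^ m * (R₁ * s) ^ m = (R * s) ^ m := by
      rw [← mul_pow]
      congr 1
      field_simp
    calc _ = K ^ 2 * (A ^ 2 * (R₁ * ((R / R₁) ^ m * (R₁ * s) ^ m) *
        min (R₁ ^ (α - m)) (r ^ (α - m)))) := by ring
      _ = _ := by rw [h2]
  rw [e4, e5]
  have e6 : c0 ≤ K ^ 2 := by nlinarith
  refine mul_le_mul e6 ?_ (by positivity) (by positivity)
  gcongr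

private theorem TP_const {m : ℕ} (c : ℂ) (β : E m → ℂ) (η : E m) (s : ℝ) (G : Z m → ℂ)
    (z : Z m) : TP (fun x => c * β x) η s G z = c * TP β η s G z := by
  unfold TP TF cp
  rw [← integral_const_mul]
  refine integral_congr_ae (Filter.Eventually.of_forall fun ζ => ?_)
  simp only
  ring

theorem pf_SSX (hLOK : T_LOK) (hCST : T_CST) (hAVX : T_AVX) (hPUS : T_PUS) (hPUB : T_PUB)
    (hCPS : T_CPS) (hSCH : T_SCH) : T_SSX := by
  classical
  intro m L β α D hβ hD hL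
  obtain ⟨_, _, Cp, hCp0, _, hcount, _⟩ := hPUS m
  obtain ⟨Cs, hCs0, hsepc⟩ := card_sep hPUS hβ (m := m)
  obtain ⟨C1, hC1⟩ := hLOK m (2 * m + 6) L β D hβ hD (by omega) (by omega)
  obtain ⟨C2, hC2⟩ := hCST m (m + 3) β (2 + 2 * D) hβ (by linarith)
  obtain ⟨C3, hC3⟩ := hAVX m (m + 3) le_rfl
  obtain ⟨Cβ, hCβ1, hBp⟩ := hPUB m L β hβ
  have hD0 : 0 < D := by linarith
  have hCβ0 : 0 < Cβ := by linarith
  set N1 : ℝ := Cs * (2 + 4 * ((m : ℝ) + 1) * (2 * D)) ^ m with hN1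
  have hN10 : 0 ≤ N1 := by rw [hN1]; positivity
  set c0 : ℝ := C1 * N1 * C2 * (Cp * (3 + 2 * D) ^ m) * C3 * Cβ ^ 2 with hc0
  have hc00 : 0 ≤ c0 := by rw [hc0]; positivity
  refine ⟨c0 + 1, by linarith, ?_⟩
  intro R R₁ A G G' I hR₁ hR hA hTC hRg hEnX hSub
  intro J φ η s r z₀ hφ hsep hJη hs1 hs2 hr1 hr2
  have hR10 : 0 < R₁ := by linarith
  have hR0 : 0 < R := by linarith
  have hsqR : 0 < Real.sqrt R := Real.sqrt_pos.2 hR0
  have hsqR1 : 0 < Real.sqrt R₁ := Real.sqrt_pos.2 hR10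
  have hσ0 : 0 < sR R := by unfold sR; positivity
  have hσ10 : 0 < sR R₁ := by unfold sR; positivity
  have hσσ : sR R ≤ sR R₁ := by
    unfold sR
    exact inv_anti₀ hsqR1 (Real.sqrt_le_sqrt hR)
  have hs0 : 0 < s := lt_of_lt_of_le hσ10 hs1
  have hR1s : 1 ≤ R₁ * s ^ 2 := by
    have h1 : sR R₁ ^ 2 ≤ s ^ 2 := pow_le_pow_left₀ hσ10.le hs1 2
    have h2 : R₁ * sR R₁ ^ 2 = 1 := by
      unfold sR
      rw [inv_pow, Real.sq_sqrt hR10.le]
      exact mul_inv_cancel₀ hR10.ne'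
    calc (1 : ℝ) = R₁ * sR R₁ ^ 2 := h2.symm
      _ ≤ R₁ * s ^ 2 := by gcongr
  have hr0 : 0 < r := by linarith
  have hrR1 : r ≤ R₁ := hr2.trans (by nlinarith)
  obtain ⟨s', hs'⟩ : ∃ s', s' = max (sR R) (s * R₁ / R) := ⟨_, rfl⟩
  have hs'1 : sR R ≤ s' := by rw [hs']; exact le_max_left _ _
  have hs'2 : s * R₁ / R ≤ s' := by rw [hs']; exact le_max_right _ _
  have hs'0 : 0 < s' := lt_of_lt_of_le hσ0 hs'1
  have hs's : s' ≤ s := by
    rw [hs']
    refine max_le (hσσ.trans hs1) ?_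
    rw [div_le_iff₀ hR0]
    gcongr
  have hs'3 : s' ≤ 1 := hs's.trans hs2
  have hs'r : R * s' ^ 2 ≤ r := by
    rw [hs']
    rcases le_total (sR R) (s * R₁ / R) with h | h
    · rw [max_eq_right h]
      have h1 : R * (s * R₁ / R) ^ 2 = (R₁ * s ^ 2) * (R₁ / R) := by field_simp
      rw [h1]
      have h2 : R₁ / R ≤ 1 := (div_le_one hR0).2 hR
      calc (R₁ * s ^ 2) * (R₁ / R) ≤ (R₁ * s ^ 2) * 1 := by gcongr
        _ ≤ r := by linarith
    · rw [max_eq_left h]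
      have h2 : R * sR R ^ 2 = 1 := by
        unfold sR
        rw [inv_pow, Real.sq_sqrt hR0.le]
        exact mul_inv_cancel₀ hR0.ne'
      rw [h2]
      linarith
  have hrs' : r ≤ R * s' := by
    refine hr2.trans ?_
    have h1 : R * (s * R₁ / R) ≤ R * s' := by gcongr
    have h2 : R * (s * R₁ / R) = R₁ * s := by field_simp
    linarith
  -- notation
  set F : (Fin m → ℤ) → Z m → ℝ≥0∞ := fun k z => ‖TP β (ctr (sR R) k) (sR R) G z‖ₑ ^ 2 with hF
  set a : (Fin m → ℤ) → ℝ≥0∞ := fun k => ∫⁻ z, F k z *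
    ENNReal.ofReal (wt (2 * m + 6) (St η s r R₁ (z - z₀))) with ha
  set b : (Fin m → ℤ) → (Fin m → ℤ) → ℝ≥0∞ := fun q k => ∫⁻ z, F k z *
    ENNReal.ofReal (wt (m + 3) (St (ctr s' q) s' r R (z - z₀))) with hb
  set M1 : ℝ := (max 1 (Real.sqrt R / (R₁ * s))) ^ m with hM1
  set M2 : ℝ := (min (R₁ * s) (Real.sqrt R) / Real.sqrt R) ^ m * (R₁ / R) with hM2
  have hM10 : 0 ≤ M1 := by rw [hM1]; positivity
  have hM20 : 0 ≤ M2 := by rw [hM2]; positivity
  have hFm : ∀ k, Measurable (F k) := by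
    intro k
    have h1 : TC (fun ζ => cp β (ctr (sR R) k) (sR R) ζ * G ζ) :=
      hCPS m β (ctr (sR R) k) (sR R) G hβ.1 hσ0 hTC fun ζ hζ => by
        have := (hRg ζ hζ).1
        linarith
    have h2 : Continuous (TF (fun ζ => cp β (ctr (sR R) k) (sR R) ζ * G ζ)) := (hSCH m _ h1).1
    exact h2.measurable.enorm.pow_const 2
  set I2 : Finset (Fin m → ℤ) := I.filter (fun k => ‖ctr (sR R) k - η‖ ≤ (1 + 2 * D) * s) with hI2
  -- step 1: one cap of the child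
  have step1 : ∀ x ∈ J, ∫⁻ z in VX η s r R₁ z₀,
      ‖TP (φ x) x (sR R₁) (fun ζ => ∑ k ∈ I, G' k ζ) z‖ₑ ^ 2 ≤
      C1 * ENNReal.ofReal M1 *
        ∑ k ∈ I.filter (fun k => ‖ctr (sR R) k - x‖ ≤ 2 * D * sR R₁), a k := fun x hx =>
    hC1 R R₁ s r G G' I (φ x) x η z₀ hR₁ hR hTC hRg hSub (hφ x hx) (hJη x hx) hs1 hs2 hr1
  -- step 2: counting
  have step2 : ∑ x ∈ J, ∑ k ∈ I.filter (fun k => ‖ctr (sR R) k - x‖ ≤ 2 * D * sR R₁), a k ≤
      ENNReal.ofReal N1 * ∑ k ∈ I2, a k := by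
    have h1 : ∑ x ∈ J, ∑ k ∈ I.filter (fun k => ‖ctr (sR R) k - x‖ ≤ 2 * D * sR R₁), a k =
        ∑ k ∈ I, ((J.filter (fun x => ‖ctr (sR R) k - x‖ ≤ 2 * D * sR R₁)).card : ℝ≥0∞) * a k := by
      simp_rw [Finset.sum_filter]
      rw [Finset.sum_comm]
      refine Finset.sum_congr rfl fun k _ => ?_
      rw [← Finset.sum_filter, Finset.sum_const, nsmul_eq_mul]
    have h2 : ∑ k ∈ I, ((J.filter (fun x => ‖ctr (sR R) k - x‖ ≤ 2 * D * sR R₁)).card : ℝ≥0∞) *
        a k = ∑ k ∈ I2,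
        ((J.filter (fun x => ‖ctr (sR R) k - x‖ ≤ 2 * D * sR R₁)).card : ℝ≥0∞) * a k := by
      symm
      refine Finset.sum_subset (Finset.filter_subset _ _) fun k hk hk2 => ?_
      have h3 : J.filter (fun x => ‖ctr (sR R) k - x‖ ≤ 2 * D * sR R₁) = ∅ := by
        rw [Finset.filter_eq_empty_iff]
        intro x hx hcon
        apply hk2
        rw [hI2, Finset.mem_filter]
        refine ⟨hk, ?_⟩
        calc ‖ctr (sR R) k - η‖ = ‖(ctr (sR R) k - x) + (x - η)‖ := by congr 1; abel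
          _ ≤ ‖ctr (sR R) k - x‖ + ‖x - η‖ := norm_add_le _ _
          _ ≤ 2 * D * sR R₁ + s := add_le_add hcon (hJη x hx)
          _ ≤ 2 * D * s + s := by gcongr
          _ = _ := by ring
      rw [h3, Finset.card_empty, Nat.cast_zero, zero_mul]
    rw [h1, h2, Finset.mul_sum]
    refine Finset.sum_le_sum fun k _ => ?_
    refine mul_le_mul' ?_ le_rfl
    have h4 := hsepc (2 * D) (sR R₁) (ctr (sR R) k)
      (J.filter (fun x => ‖ctr (sR R) k - x‖ ≤ 2 * D * sR R₁)) (by positivity) hσ10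
      (fun x hx y hy hxy => hsep x (Finset.mem_filter.1 hx).1 y (Finset.mem_filter.1 hy).1 hxy)
      (fun x hx => (Finset.mem_filter.1 hx).2)
    rw [← ENNReal.ofReal_natCast]
    exact ENNReal.ofReal_le_ofReal h4
  -- step 3: from the boxes of the child to the boxes of the parent
  choose κ hκ using fun k : Fin m → ℤ => near_cap hPUS hβ hs'0 (ctr (sR R) k)
  have hκη : ∀ k ∈ I2, ‖ctr s' (κ k) - η‖ ≤ (2 + 2 * D) * s := by
    intro k hk
    calc ‖ctr s' (κ k) - η‖ = ‖(ctr (sR R) k - η) - (ctr (sR R) k - ctr s' (κ k))‖ := by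
          congr 1; abel
      _ ≤ ‖ctr (sR R) k - η‖ + ‖ctr (sR R) k - ctr s' (κ k)‖ := norm_sub_le _ _
      _ ≤ (1 + 2 * D) * s + s' := add_le_add (Finset.mem_filter.1 hk).2 (hκ k).le
      _ ≤ (1 + 2 * D) * s + s := by gcongr
      _ = _ := by ring
  have step3 : ∀ k ∈ I2, a k ≤ C2 * ENNReal.ofReal M2 * b (κ k) k := by
    intro k hk
    have h := hC2 R R₁ s s' r G k η (ctr s' (κ k)) z₀ hR₁ hR hTC hRg hs1 hs2 hr1 hs' (hκη k hk)
      ((hκ k).le.trans (by nlinarith))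
    rw [show m + 3 + m + 3 = 2 * m + 6 by ring] at h
    exact h
  -- step 4: fibres
  have step4 : ∑ k ∈ I2, b (κ k) k = ∑ q ∈ I2.image κ, ∑ k ∈ I2 with κ k = q, b q k := by
    rw [← Finset.sum_fiberwise_of_maps_to (g := κ) (t := I2.image κ)
      (fun k hk => Finset.mem_image_of_mem κ hk) (fun k => b (κ k) k)]
    refine Finset.sum_congr rfl fun q _ => Finset.sum_congr rfl fun k hk => ?_
    rw [(Finset.mem_filter.1 hk).2]
  -- step 5: averaging
  set M3 : ℝ := A ^ 2 * (R * (R * s') ^ m * min (R ^ (α - m)) (r ^ (α - m))) with hM3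
  have hmin0 : 0 ≤ min (R ^ (α - m)) (r ^ (α - m)) :=
    le_min (Real.rpow_nonneg hR0.le _) (Real.rpow_nonneg hr0.le _)
  have hM30 : 0 ≤ M3 := by rw [hM3]; positivity
  have step5 : ∀ q ∈ I2.image κ, ∑ k ∈ I2 with κ k = q, b q k ≤
      C3 * ENNReal.ofReal (Cβ ^ 2 * M3) := by
    intro q _
    set K : Finset (Fin m → ℤ) := I2.filter (fun k => κ k = q) with hK
    have hbox : ∀ z₁, ∫⁻ z in VX (ctr s' q) s' r R z₁, ∑ k ∈ K, F k z ≤
        ENNReal.ofReal (Cβ ^ 2 * M3) := by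
      intro z₁
      rw [lintegral_finsetSum K fun k _ => hFm k]
      have h1 := hEnX (K.image (ctr (sR R))) (fun _ x => ((Cβ⁻¹ : ℝ) : ℂ) * β x) (ctr s' q) s' r z₁
        (fun _ _ => hBp) (by
          intro x hx y hy hxy
          obtain ⟨k, _, rfl⟩ := Finset.mem_image.1 hx
          obtain ⟨k', _, rfl⟩ := Finset.mem_image.1 hy
          exact ctr_sep hσ0 fun h => hxy (by rw [h])) (by
          intro x hx
          obtain ⟨k, hk, rfl⟩ := Finset.mem_image.1 hx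
          have h2 := (Finset.mem_filter.1 hk).2
          rw [← h2]
          exact (hκ k).le) hs'1 hs'3 hs'r hrs'
      rw [Finset.sum_image fun x _ y _ h => ctr_inj hσ0 h] at h1
      have h3 : ∀ k, ∫⁻ z in VX (ctr s' q) s' r R z₁, F k z =
          ENNReal.ofReal (Cβ ^ 2) * ∫⁻ z in VX (ctr s' q) s' r R z₁,
            ‖TP (fun x => ((Cβ⁻¹ : ℝ) : ℂ) * β x) (ctr (sR R) k) (sR R) G z‖ₑ ^ 2 := by
        intro k
        rw [← lintegral_const_mul' _ _ ENNReal.ofReal_ne_top]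
        refine lintegral_congr fun z => ?_
        rw [TP_const, enorm_mul, mul_pow]
        have h4 : ‖((Cβ⁻¹ : ℝ) : ℂ)‖ₑ = ENNReal.ofReal Cβ⁻¹ := by
          rw [← ofReal_norm, Complex.norm_real, Real.norm_of_nonneg (by positivity)]
        rw [h4, ← ENNReal.ofReal_pow (by positivity), ← mul_assoc,
          ← ENNReal.ofReal_mul (by positivity), ← mul_pow, mul_inv_cancel₀ hCβ0.ne', one_pow,
          ENNReal.ofReal_one, one_mul]
      simp_rw [h3]
      rw [← Finset.mul_sum, ENNReal.ofReal_mul (by positivity)]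
      exact mul_le_mul' le_rfl h1
    have h5 := hC3 (fun z => ∑ k ∈ K, F k z) (ctr s' q) s' r R 1 (St (ctr s' q) s' r R z₀)
      (ENNReal.ofReal (Cβ ^ 2 * M3)) (Finset.measurable_sum K fun k _ => hFm k) hs'0 hr0 hR0
      one_pos le_rfl hbox
    have hSt : ∀ z : Z m, St (ctr s' q) s' r R (z - z₀) =
        (1 : ℝ) • St (ctr s' q) s' r R z - St (ctr s' q) s' r R z₀ := by
      intro z
      rw [one_smul]
      unfold St Lo
      refine Prod.ext ?_ (Prod.ext ?_ ?_)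
      · simp only [Prod.fst_sub, Prod.snd_sub, inner_sub_left]
        ring
      · simp only [Prod.fst_sub, Prod.snd_sub, Prod.smul_fst, Prod.smul_snd]
        rw [← smul_sub, ← smul_sub]
        congr 2
        rw [mul_sub, sub_smul]
        abel
      · simp only [Prod.snd_sub, Prod.smul_snd, smul_eq_mul]
        ring
    have hwm : Measurable fun z : Z m =>
        ENNReal.ofReal (wt (m + 3) (St (ctr s' q) s' r R (z - z₀))) := by
      unfold wt St Lo
      fun_prop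
    have hm : ∀ k, Measurable fun z : Z m =>
        F k z * ENNReal.ofReal (wt (m + 3) (St (ctr s' q) s' r R (z - z₀))) :=
      fun k => (hFm k).mul hwm
    calc ∑ k ∈ K, b q k = ∫⁻ z, (∑ k ∈ K, F k z) *
          ENNReal.ofReal (wt (m + 3) ((1 : ℝ) • St (ctr s' q) s' r R z -
            St (ctr s' q) s' r R z₀)) := by
          rw [hb]
          simp only
          rw [← lintegral_finsetSum K fun k _ => hm k]
          refine lintegral_congr fun z => ?_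
          rw [hSt z, Finset.sum_mul]
      _ ≤ _ := h5
      _ = _ := by simp
  -- step 6: counting of the caps of the parent
  have step6 : ((I2.image κ).card : ℝ) ≤ Cp * (3 + 2 * D) ^ m * (s / s') ^ m := by
    have h1 := hcount s' ((2 + 2 * D) * s) η (I2.image κ) hs'0 (by positivity) (by
      intro q hq
      obtain ⟨k, hk, rfl⟩ := Finset.mem_image.1 hq
      exact hκη k hk)
    refine h1.trans ?_
    rw [mul_assoc, ← mul_pow]
    have h2 : 1 ≤ s / s' := (one_le_div hs'0).2 hs's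
    have h3 : (2 + 2 * D) * s / s' = (2 + 2 * D) * (s / s') := by ring
    rw [h3]
    refine mul_le_mul_of_nonneg_left (pow_le_pow_left₀ (by positivity) ?_ _) hCp0.le
    nlinarith
  -- conclusion
  have hc : ∀ c : ℝ≥0, (c : ℝ≥0∞) = ENNReal.ofReal (c : ℝ) := fun c =>
    (ENNReal.ofReal_coe_nnreal).symm
  calc ∑ x ∈ J, ∫⁻ z in VX η s r R₁ z₀,
      ‖TP (φ x) x (sR R₁) (fun ζ => ∑ k ∈ I, G' k ζ) z‖ₑ ^ 2
      ≤ ∑ x ∈ J, C1 * ENNReal.ofReal M1 *
        ∑ k ∈ I.filter (fun k => ‖ctr (sR R) k - x‖ ≤ 2 * D * sR R₁), a k :=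
        Finset.sum_le_sum step1
    _ = C1 * ENNReal.ofReal M1 * ∑ x ∈ J,
        ∑ k ∈ I.filter (fun k => ‖ctr (sR R) k - x‖ ≤ 2 * D * sR R₁), a k := by
        rw [Finset.mul_sum]
    _ ≤ C1 * ENNReal.ofReal M1 * (ENNReal.ofReal N1 * ∑ k ∈ I2, a k) :=
        mul_le_mul' le_rfl step2
    _ ≤ C1 * ENNReal.ofReal M1 * (ENNReal.ofReal N1 *
        ∑ k ∈ I2, C2 * ENNReal.ofReal M2 * b (κ k) k) :=
        mul_le_mul' le_rfl (mul_le_mul' le_rfl (Finset.sum_le_sum step3))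
    _ = C1 * ENNReal.ofReal M1 * (ENNReal.ofReal N1 * (C2 * ENNReal.ofReal M2 *
        ∑ q ∈ I2.image κ, ∑ k ∈ I2 with κ k = q, b q k)) := by
        rw [← Finset.mul_sum, step4]
    _ ≤ C1 * ENNReal.ofReal M1 * (ENNReal.ofReal N1 * (C2 * ENNReal.ofReal M2 *
        ∑ q ∈ I2.image κ, C3 * ENNReal.ofReal (Cβ ^ 2 * M3))) :=
        mul_le_mul' le_rfl (mul_le_mul' le_rfl (mul_le_mul' le_rfl (Finset.sum_le_sum step5)))
    _ = C1 * ENNReal.ofReal M1 * (ENNReal.ofReal N1 * (C2 * ENNReal.ofReal M2 *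
        (ENNReal.ofReal ((I2.image κ).card : ℝ) * (C3 * ENNReal.ofReal (Cβ ^ 2 * M3))))) := by
        rw [Finset.sum_const, nsmul_eq_mul, ENNReal.ofReal_natCast]
    _ ≤ C1 * ENNReal.ofReal M1 * (ENNReal.ofReal N1 * (C2 * ENNReal.ofReal M2 *
        (ENNReal.ofReal (Cp * (3 + 2 * D) ^ m * (s / s') ^ m) *
          (C3 * ENNReal.ofReal (Cβ ^ 2 * M3))))) := by
        gcongr
    _ = ENNReal.ofReal (c0 * (M1 * M2 * (s / s') ^ m * M3)) := by
        rw [hc C1, hc C2, hc C3, ← ENNReal.ofReal_mul (by positivity),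
          ← ENNReal.ofReal_mul (by positivity), ← ENNReal.ofReal_mul (by positivity),
          ← ENNReal.ofReal_mul (by positivity), ← ENNReal.ofReal_mul (by positivity),
          ← ENNReal.ofReal_mul (by positivity), ← ENNReal.ofReal_mul (by positivity), hc0]
        congr 1
        ring
    _ ≤ _ := ENNReal.ofReal_le_ofReal
        (arith hR₁ hR hs0 hs'0 hr0 hrR1 (by linarith) (by linarith))

end Pool.Agent.H4.FD.SSX
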